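import Pool.Agent.Lib.MP_b21ca1_al.Basic

/-!
# Elliptic curves over infinite radically closed fields

Every elliptic curve over an infinite radically closed field, of any characteristic, has
infinitely many rational points. In characteristic different from 2 this only needs square roots.
In characteristic 2 a radically closed field need not be closed under Artin-Schreier extensions.
There an ordinary curve is brought to the form `Y ^ 2 + X * Y = X ^ 3 + a * X ^ 2 + c`; for every
`l` in `K`, with `A = a + l ^ 2 + l`, `D = A + A ^ 2 + A ^ 3 + A ^ 4 + c ≠ 0`, a cube root `d` of
`D` and `e = (1 + A) / d`, the pair `X = A + d + e + e ^ 2`,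
`Y = e ^ 3 + 1 + A + A ^ 2 + l * X` is a point (`ord_point`). A supersingular curve
`y ^ 2 + a3 * y = x ^ 3 + a4 * x + a6` is reduced to an ordinary one by solving a cubic in Cardano
form `u + a4 / u`.
-/

namespace Pool.Agent.Results.MP_b21ca1_al.EllipticCurves

open MPb21ca1

/-- Every elliptic curve over an infinite radically closed field has infinitely many points. -/
theorem result (K : Type*) [Field K] [Infinite K] (hK : RadClosed K) (W : WeierstrassCurve K)
    [W.IsElliptic] : Infinite W.toAffine.Point :=
  elliptic_inf hK W

end Pool.Agent.Results.MP_b21ca1_al.EllipticCurves
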