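import Pool.Agent.Lib.MP_b21ca1_al.Dense

/-!
# Varieties parametrised by radicals over radically closed fields

Let `K` be a radically closed field, `A` an integrally closed `K`-domain whose `K`-points are dense
(for instance the coordinate ring of an affine space over an infinite `K`, or of any normal affine
`K`-variety with dense `K`-points), and `L` a finite Galois extension of `Frac A` with solvable
group (tame; no condition in characteristic zero). Then every finitely generated `K`-subalgebra `R`
of `L` has dense `K`-points: every `K`-variety whose function field embeds into `L` over `K`, that
is, which is dominated by the solvable cover of `Spec A` given by `L`, has a Zariski dense set of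
`K`-points.

Proof: a `K`-point of `A` at which a common denominator does not vanish extends to the integral
closure `B` of `A` in `L`, since by the theory of the decomposition group the residue extension is
Galois with solvable group over `K`, hence trivial (`RadClosed.exists_hom`).
-/

namespace Pool.Agent.Results.MP_b21ca1_al.RadicalUniformization

open MPb21ca1

/-- Varieties dominated by solvable covers have dense points over radically closed fields. Here
`F` is the fraction field of `A`. -/
theorem result.{u} (K : Type u) [Field K] (hK : RadClosed K) :
    (∀ (A F L : Type u) [CommRing A] [IsDomain A] [IsIntegrallyClosed A] [Algebra K A]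
        [Field F] [Algebra A F] [IsFractionRing A F]
        [Field L] [Algebra F L] [FiniteDimensional F L] [IsGalois F L]
        [Algebra A L] [IsScalarTower A F L] [Algebra K L] [IsScalarTower K A L],
      DensePoints K A → Group.IsSolvable Gal(L/F) → Tame K (Nat.card Gal(L/F)) →
      ∀ R : Subalgebra K L, R.FG → DensePoints K R) ∧
    (Infinite K → ∀ n : ℕ, DensePoints K (MvPolynomial (Fin n) K)) := by
  refine ⟨?_, ?_⟩
  · intro A F L _ _ _ _ _ _ _ _ _ _ _ _ _ _ _ hA hs hc R hR
    exact hK.densePoints hA (L₀ := F) hs hc R hR
  · intro _ n
    exact densePoints_mvPolynomial K n

end Pool.Agent.Results.MP_b21ca1_al.RadicalUniformization
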